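import Pool.Agent.P.MP_9167e9_an.Gam1.Met

/-!
Lamp sets of copies, the commutation graph, and the module GAM1.
-/

noncomputable section
open scoped Classical

namespace Pool.Agent.P.MP_9167e9_an

namespace G1

variable {P : Prm} {F : Set (Cell P)} {w : WS (FreeGroup P.S) (FreeGroup P.S × P.S) (TC F)}

theorem EP_mul (c : Cell P) (δ δ' : Gam F) (e : Lm F) :
    e ∈ EP F c δ ↔ (e.1 * δ', e.2) ∈ EP F c (δ * δ') := by
  simp only [EP, Set.mem_ofPred_eq, ← mul_assoc, mul_left_inj]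

theorem EP_P (hF : Adm F) {c : Cell P} (hc : c ∈ F) (hb : BasOut c) {p : FreeGroup P.S}
    (hp : p ∈ c.Pg) (δ : Gam F) : EP F c (mkG F p * δ) = EP F c δ := by
  have h : ∀ p ∈ c.Pg, ∀ δ : Gam F, EP F c (mkG F p * δ) ⊆ EP F c δ := by
    rintro p hp δ e ⟨x, hx, h1, h2⟩
    refine ⟨x * p, Qp_mul hF hc hb hx hp, ?_, by rw [h2, map_mul, mul_assoc]⟩
    rw [← mul_assoc]
    exact Qp_mul hF hc hb h1 hp
  refine Set.Subset.antisymm (h p hp δ) ?_
  simpa using h p⁻¹ (Subgroup.inv_mem _ hp) (mkG F p * δ)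

theorem run_symm {c : Cell P} {δ x x' : FreeGroup P.S} {n : ℕ} (h : Run c δ x x' n) :
    Run c δ x' x n := by
  obtain ⟨y, y', h1, h2, h3, h4⟩ := h
  refine ⟨y', y, h2, h1, by rwa [nr_swap], ?_⟩
  rw [nr_swap x' x, nr_swap x' y', nr_swap y' y, nr_swap y x]
  omega

theorem NC_symm {e f : Lm F} (h : NC F e f) : NC F f e := by
  rcases h with h | ⟨c, hc, x, x', δ, h1, h2, h3, h4, h5⟩
  · exact Or.inl ⟨h.1.symm, h.2.symm⟩
  · exact Or.inr ⟨c, hc, x', x, δ, h2, h1, geo_symm h3, run_symm h4, fun h => h5 h.symm⟩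

theorem NC_mul {e f : Lm F} (h : NC F e f) (δ : Gam F) :
    NC F (e.1 * δ, e.2) (f.1 * δ, f.2) := by
  obtain ⟨ε, rfl⟩ := mk_surj δ
  rcases h with h | ⟨c, hc, x, x', δ, h1, h2, h3, ⟨y, y', h4, h5, h6, h7⟩, h8⟩
  · exact Or.inl ⟨by rw [h.1], h.2⟩
  · refine Or.inr ⟨c, hc, x * ε, x' * ε, δ * ε, by rw [map_mul, h1], by rw [map_mul, h2],
      geo_mul h3 ε, ⟨y * ε, y' * ε, by simpa [mul_assoc] using h4, by simpa [mul_assoc] using h5,
        by simpa [mul_assoc] using h6, by simpa [mul_assoc] using h7⟩, ?_⟩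
    rwa [map_mul, ← EP_mul, ← EP_mul]

theorem adj_mul (e f : Lm F) (δ : Gam F) (h : adj F e f) :
    adj F (e.1 * δ, e.2) (f.1 * δ, f.2) := fun h2 => h (by simpa using NC_mul h2 δ⁻¹)

theorem EP_slot (hF : Adm F) (hw : TInst w) {c : Cell P} (hc : c ∈ F) (hb : BasOut c)
    {δ γ : Gam F} {s s' : P.S} (h : (γ, s) ∈ EP F c δ) (h' : (γ, s') ∈ EP F c δ)
    (hs : P.slot s = P.slot s') : s = s' := by
  obtain ⟨x, hx, h1, h2⟩ := h
  obtain ⟨x', hx', h3, h4⟩ := h'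
  have h5 : x⁻¹ * x' ∈ KG F := mk_eq.mp (mul_right_cancel (h2.symm.trans h4))
  have h6 := emb hF hw hc hx' hx h5 (by simpa using geo_self x')
  refine (hF.ok c hc).indeg x' hx' s s' ?_ h3 hs
  simpa [mul_assoc] using Qp_mul hF hc hb h1 (Kg_Pg hb h6)

theorem ed_mem (hF : Adm F) {c : Cell P} (hc : c ∈ F) (hb : BasOut c) (δ : Gam F)
    (e : (c.V × Fin P.j) × ZMod 2) : ed F c δ e ∈ EP F c δ := by
  obtain ⟨h1, h2⟩ := hb.rp (e.1.1, e.2)
  have h3 := Cell.Qc.bwd _ e.1.2 h1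
  have h4 : c.vx (c.rp (e.1.1, e.2)) = e.1.1 := congrArg Prod.fst h2
  rw [h4] at h3
  exact ⟨_, (hF.ok c hc).sub _ h1, (hF.ok c hc).sub _ h3, rfl⟩

theorem ed_inj (hF : Adm F) (hw : TInst w) {c : Cell P} (hc : c ∈ F) (hb : BasOut c)
    (δ : Gam F) : Function.Injective (ed F c δ) := by
  rintro ⟨⟨v, i⟩, x⟩ ⟨⟨v', i'⟩, x'⟩ h
  have h1 : pos F c (v, x) = pos F c (v', x') := mul_right_cancel (congrArg Prod.fst h)
  have h2 : c.lab v i = c.lab v' i' := congrArg Prod.snd h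
  have h3 := pos_d hF hw hc hb (v, x) (v', x')
  rw [h1, dG_self] at h3
  have h4 := hb.ht.d_zero _ _ h3.symm
  have h5 := congrArg P.slot h2
  rw [(hF.ok c hc).lab_slot, (hF.ok c hc).lab_slot] at h5
  rw [Prod.mk.injEq] at h4
  rw [h4.1, h4.2, h5]

theorem clq (hF : Adm F) (hw : TInst w) (hB : ∀ c ∈ F, BasOut c) {c : Cell P} (hc : c ∈ F)
    (δ : Gam F) : Clq (adj F) (EP F c δ) := by
  rintro ⟨γ, s⟩ he ⟨γ', s'⟩ hf hne (h | ⟨c', hc', x, x', δ', h1, h2, h3, ⟨y, y', h4, h5, h6, h7⟩, h8⟩)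
  · obtain ⟨h1, h2⟩ := h
    simp only at h1 h2
    subst h1
    exact hne (by rw [EP_slot hF hw hc (hB c hc) he hf h2])
  · obtain ⟨x0, hx0, -, e0⟩ := id he
    obtain ⟨x1, hx1, -, e1⟩ := id hf
    have hδ : mkG F (x0⁻¹ * x) = δ := by rw [map_mul, map_inv, h1, e0, inv_mul_cancel_left]
    have hx : x * (x0⁻¹ * x)⁻¹ ∈ c.Qp := by simpa using hx0
    obtain ⟨-, -, -, hx'⟩ := lift2 hF hw hc (hB c hc) hx hx1 (by rw [h2, hδ, e1]) h3
    simp only [← hw.tree.d_eq] at h6 h7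
    have t1 := hw.pre.d_tri y y' x'
    have t2 := hw.pre.d_tri x y x'
    have t3 := hw.pre.d_tri x y y'
    have t4 := hw.pre.d_tri x y' x'
    have hy := convP hF hw hc hx hx' (z := y) (by omega)
    have hy' := convP hF hw hc hx hx' (z := y') (by omega)
    by_cases hQ : tc F c' hc' δ' = tc F c hc (x0⁻¹ * x)
    · obtain ⟨rfl, hp⟩ := tc_inj (hB c hc) hQ.symm
      have h9 : mkG F δ' = mkG F (δ' * (x0⁻¹ * x)⁻¹) * δ := by
        rw [← hδ, ← map_mul, inv_mul_cancel_right]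
      rw [h9, EP_P hF hc (hB c hc) hp] at h8
      exact h8 ⟨he, hf⟩
    · have h9 := OV hF hw hc hy hy' hQ
      rw [run_cell hw ((mem_cell hw).mpr h4) ((mem_cell hw).mpr h5), θ_tc hw] at h9
      have h10 := L_pos hF hc'
      omega

variable (F) in
/-- The lamps within the depth of the trees from a set of core vertices. -/
def Nb (c : Cell P) (δ : Gam F) (D : Set (c.V × ZMod 2)) : Set (Lm F) :=
  {e | ∃ a, nr a ≤ c.R2 ∧ ∃ d ∈ D, e.1 = mkG F a * pos F c d * δ}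

theorem Nb_card (hBall : StBall) (c : Cell P) (δ : Gam F) (D : Set (c.V × ZMod 2)) :
    (Nb F c δ D).Finite ∧
      (Nb F c δ D).ncard ≤ D.ncard * (2 * Fintype.card P.S + 1) ^ (c.R2 + 1) := by
  obtain ⟨h1, h2⟩ := hBall P.S c.R2
  have h : Nb F c δ D = (fun t : (c.V × ZMod 2) × FreeGroup P.S × P.S =>
      ((mkG F t.2.1 * pos F c t.1 * δ, t.2.2) : Lm F)) ''
      ((D.toFinset ×ˢ ballF P.S c.R2 ×ˢ (Finset.univ : Finset P.S) :
        Finset ((c.V × ZMod 2) × FreeGroup P.S × P.S)) : Set _) := by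
    ext ⟨γ, s⟩
    constructor
    · rintro ⟨a, ha, d, hd, e⟩
      exact ⟨(d, a, s), by simp [hd, h1, ha], Prod.ext e.symm rfl⟩
    · rintro ⟨⟨d, a, s'⟩, ht, e⟩
      simp only [Finset.coe_product, Set.mem_prod, Finset.mem_coe, Set.mem_toFinset, h1] at ht
      exact ⟨a, ht.2.1, d, ht.1, (congrArg Prod.fst e).symm⟩
  rw [h]
  refine ⟨(Finset.finite_toSet _).image _, (Set.ncard_image_le (Finset.finite_toSet _)).trans ?_⟩
  rw [Set.ncard_coe_finset, Finset.card_product, Finset.card_product, Finset.card_univ,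
    ← Set.ncard_eq_toFinset_card', pow_succ]
  exact Nat.mul_le_mul_left _ (Nat.mul_le_mul h2 (by omega))

theorem mem_Nb (hF : Adm F) (hw : TInst w) {c : Cell P} (hc : c ∈ F) (hb : BasOut c)
    {δ y z : FreeGroup P.S} {D : Set (c.V × ZMod 2)} {e : Lm F} (hy : y * δ⁻¹ ∈ c.Qp)
    (he : e.1 = mkG F y) (hz : c.Qc (z * δ⁻¹)) (h1 : mkG F z = mkG F (w.π (tc F c hc δ) y))
    (hD : c.cp (z * δ⁻¹) ∈ D) : e ∈ Nb F c (mkG F δ) D := by
  refine ⟨y * (w.π (tc F c hc δ) y)⁻¹, ?_, _, hD, ?_⟩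
  · rw [← hw.tree.d_eq]
    exact depth hF hw hc hy
  · rw [he, pos_cp hc hb hz]
    simp [h1]

theorem EP_fin (hBall : StBall) (hF : Adm F) (hw : TInst w) {c : Cell P} (hc : c ∈ F)
    (hb : BasOut c) (δ : Gam F) : (EP F c δ).Finite ∧ (EP F c δ).ncard ≤ c.sz := by
  obtain ⟨ε, rfl⟩ := mk_surj δ
  obtain ⟨h1, h2⟩ := Nb_card hBall c (mkG F ε) Set.univ
  have h : EP F c (mkG F ε) ⊆ Nb F c (mkG F ε) Set.univ := by
    rintro e ⟨x, hx, -, h3⟩
    exact mem_Nb hF hw hc hb (y := x * ε) (by simpa using hx) (by rw [h3, map_mul])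
      (π_Qc hw hc ε _) rfl (Set.mem_univ _)
  refine ⟨h1.subset h, (Set.ncard_le_ncard h h1).trans (h2.trans (le_of_eq ?_))⟩
  rw [Set.ncard_univ, Nat.card_eq_fintype_card, Fintype.card_prod, ZMod.card, Cell.sz,
    mul_comm _ 2]

theorem le_θc (hBall : StBall) {c : Cell P} (hb : BasOut c) (δ : Gam F) (d0 : c.V × ZMod 2)
    {T : Set (Lm F)} (h : T ⊆ Nb F c δ {d | dC c.τ d0 d ≤ 11 * c.L}) : T.ncard ≤ c.θc := by
  obtain ⟨h1, h2⟩ := Nb_card hBall c δ {d | dC c.τ d0 d ≤ 11 * c.L}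
  exact (Set.ncard_le_ncard h h1).trans (h2.trans (Nat.mul_le_mul_right _ (hb.ht.ball d0 _)))

theorem dC_d (hw : TInst w) {c : Cell P} (hb : BasOut c) {δ x z : FreeGroup P.S}
    (hx : c.Qc (x * δ⁻¹)) (hz : c.Qc (z * δ⁻¹)) :
    dC c.τ (c.cp (x * δ⁻¹)) (c.cp (z * δ⁻¹)) ≤ w.d x z := by
  rw [hw.tree.d_eq]
  simpa [mul_assoc] using dC_le hb hx hz

theorem dich (hBall : StBall) (hF : Adm F) (hw : TInst w) {c : Cell P} (hc : c ∈ F)
    (hb : BasOut c) (δ : Gam F) (f : Lm F) (hf : f ∉ EP F c δ) :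
    (EP F c δ ∩ star (adj F) f).ncard ≤ c.θc := by
  obtain ⟨ε, rfl⟩ := mk_surj δ
  obtain ⟨x0, h0⟩ := mk_surj f.1
  obtain ⟨k0, hk0, hmin⟩ := hw.out.min_ex (tc F c hc ε) x0
  have hg := hw.out.min_good _ _ hmin
  have h1 : mkG F (x0 * k0) = f.1 := by
    rw [map_mul, mk_K (k := k0) (by rwa [hw.KK_eq] at hk0), mul_one, h0]
  generalize x0 * k0 = x1 at hg h1
  refine le_θc hBall hb (mkG F ε) (c.cp (w.π (tc F c hc ε) x1 * ε⁻¹)) ?_
  rintro e ⟨he, rfl | ha⟩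
  · exact absurd he hf
  · obtain ⟨x, hx, -, h3⟩ := id he
    have hy : x * ε * ε⁻¹ ∈ c.Qp := by simpa using hx
    have hey : e.1 = mkG F (x * ε) := by rw [h3, map_mul]
    generalize x * ε = y at hy hey
    obtain ⟨x2, h4, h5⟩ := geo_lift y f.1
    have hL := L_pos hF hc
    have h6 : w.run (tc F c hc ε) y x2 < 10 * c.L := by
      by_contra hlt
      have h7 := hw.out.pass (tc F c hc ε) y x2 (by rw [θ_tc hw]; omega)
      refine ha (NC_symm (Or.inr ⟨c, hc, y, x2, ε, hey.symm, h4, h5,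
        ⟨_, _, π_Qc hw hc ε y, π_Qc hw hc ε x2, ?_, ?_⟩, fun h => hf h.2⟩))
      · rw [← hw.tree.d_eq]
        exact not_lt.mp hlt
      · simp only [← hw.tree.d_eq]
        exact h7
    have h7 : x1⁻¹ * x2 ∈ w.KK := by
      rw [hw.KK_eq]
      exact mk_eq.mp (h1.trans h4.symm)
    obtain ⟨α, hα, h8⟩ := hw.out.gatecons _ x1 _ h7 hg (by simpa using GoodT hF hw hc hy h5)
    rw [mul_inv_cancel_left, θ_tc hw] at h8
    have h9 : c.Qc (w.π (tc F c hc ε) y * α * ε⁻¹) := by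
      rw [← π_K hw hα]
      exact π_Qc hw hc ε _
    refine mem_Nb hF hw hc hb hy hey h9 (by rw [map_mul, mk_K (K_le hw hα), mul_one]) ?_
    refine (dC_d hw hb (π_Qc hw hc ε x1) h9).trans ?_
    have h10 := hw.pre.d_tri (w.π (tc F c hc ε) x1) (w.π (tc F c hc ε) x2 * α)
      (w.π (tc F c hc ε) y * α)
    rw [hw.pre.d_mul, hw.pre.d_comm (w.π (tc F c hc ε) x2)] at h10
    unfold WS.run at h6 h8
    rw [π_K hw hα] at h8
    omega

theorem ovl (hBall : StBall) (hF : Adm F) (hw : TInst w) (hB : ∀ c ∈ F, BasOut c) {c c' : Cell P}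
    (hc : c ∈ F) (hc' : c' ∈ F) (δ δ' : Gam F) : (c = c' ∧ ∃ p ∈ c.Pg, δ' = mkG F p * δ) ∨
      (EP F c δ ∩ EP F c' δ').ncard ≤ c.θc := by
  rcases (EP F c δ ∩ EP F c' δ').eq_empty_or_nonempty with h | ⟨e0, ⟨x0, hx0, -, e1⟩, x0', hx0', -, e2⟩
  · right
    rw [h, Set.ncard_empty]
    exact Nat.zero_le _
  obtain ⟨x, hx⟩ := mk_surj e0.1
  have hδ : mkG F (x0⁻¹ * x) = δ := by rw [map_mul, map_inv, hx, e1, inv_mul_cancel_left]
  have hδ' : mkG F (x0'⁻¹ * x) = δ' := by rw [map_mul, map_inv, hx, e2, inv_mul_cancel_left]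
  have h1 : x * (x0⁻¹ * x)⁻¹ ∈ c.Qp := by simpa using hx0
  have h2 : x * (x0'⁻¹ * x)⁻¹ ∈ c'.Qp := by simpa using hx0'
  generalize x0⁻¹ * x = ε at hδ h1
  generalize x0'⁻¹ * x = ε' at hδ' h2
  subst hδ hδ'
  by_cases hQ : tc F c hc ε = tc F c' hc' ε'
  · obtain ⟨rfl, hp⟩ := tc_inj (hB c hc) hQ
    exact Or.inl ⟨rfl, _, hp, by simp⟩
  · refine Or.inr (le_θc hBall (hB c hc) (mkG F ε) (c.cp (w.π (tc F c hc ε) x * ε⁻¹)) ?_)
    rintro e ⟨⟨y0, hy0, -, e3⟩, y0', hy0', -, e4⟩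
    obtain ⟨y, h3, h4⟩ := geo_lift x e.1
    obtain ⟨-, -, -, h5⟩ := lift2 hF hw hc (hB c hc) h1 hy0 (h3.trans e3) h4
    obtain ⟨-, -, -, h6⟩ := lift2 hF hw hc' (hB c' hc') h2 hy0' (h3.trans e4) h4
    refine mem_Nb hF hw hc (hB c hc) h5 h3.symm (π_Qc hw hc ε y) rfl ?_
    refine (dC_d hw (hB c hc) (π_Qc hw hc ε x) (π_Qc hw hc ε y)).trans ?_
    have h7 := OV hF hw hc' h2 h6 hQ
    rw [θ_tc hw] at h7
    unfold WS.run at h7
    omega

theorem EP_diam {c : Cell P} (hc : c ∈ F) (hb : BasOut c) {δ : Gam F} {e f : Lm F}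
    (he : e ∈ EP F c δ) (hf : f ∈ EP F c δ) : dG F e.1 f.1 ≤ c.sz := by
  obtain ⟨x, hx, -, h1⟩ := he
  obtain ⟨z, hz, -, h2⟩ := hf
  obtain ⟨k, hk, h⟩ := hb.covP x hx z hz
  have h3 := dG_mk (F := F) x (z * k)
  rw [map_mul, mk_K (Kg_le hc hk), mul_one] at h3
  rw [h1, h2, dG_mul]
  exact h3.trans h

end G1

open G1 in
theorem pGam1 (hTW : StTW) (hBas : StBas) (_hNum : StNum) (hBall : StBall) : StGam1 := by
  intro P F hF
  obtain ⟨w, hw⟩ := hTW P F hF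
  have hB : ∀ c ∈ F, BasOut c := fun c hc =>
    hBas P c (by have := hF.j_big; omega) (hF.ok c hc)
  exact
    { dG_ex := dG_ex
      dG_le := dG_le
      dG_symm := dG_symm
      dG_tri := dG_tri
      dG_mul := dG_mul
      geo_iff := geo_iff
      dehn := fun _ hk h1 => dehn hw hk h1
      emb := fun _ hc _ hx _ hx' _ hk hg => emb hF hw hc hx hx' hk hg
      iso := fun _ hc _ hx _ hx' => iso hF hw hc hx hx'
      pos_cp := fun c hc _ hx => pos_cp hc (hB c hc) hx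
      pos_d := fun c hc => pos_d hF hw hc (hB c hc)
      pos_mv := fun c hc => pos_mv hF hc (hB c hc)
      pos_P := fun c hc _ hp => pos_P hc (hB c hc) hp
      adj_symm := fun _ _ h h2 => h (NC_symm h2)
      adj_irr := fun _ h => h (Or.inl ⟨rfl, rfl⟩)
      adj_mul := adj_mul
      EP_mul := EP_mul
      EP_P := fun c hc _ hp => EP_P hF hc (hB c hc) hp
      EP_fin := fun c hc => EP_fin hBall hF hw hc (hB c hc)
      EP_diam := fun c hc _ _ he _ hf => EP_diam hc (hB c hc) he hf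
      EP_slot := fun c hc _ _ _ _ h h' hs => EP_slot hF hw hc (hB c hc) h h' hs
      ed_mem := fun c hc => ed_mem hF hc (hB c hc)
      ed_inj := fun c hc => ed_inj hF hw hc (hB c hc)
      clq := fun _ hc => clq hF hw hB hc
      dich := fun c hc => dich hBall hF hw hc (hB c hc)
      ovl := fun _ hc _ hc' => ovl hBall hF hw hB hc hc' }

end Pool.Agent.P.MP_9167e9_an
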