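import Pool.Agent.P.MP_9167e9_an.Gam1.TP

/-!
The metric of the quotient group, lifts, and the positions of core vertices.
-/

noncomputable section
open scoped Classical

namespace Pool.Agent.P.MP_9167e9_an.G1

variable {P : Prm} {F : Set (Cell P)} {w : WS (FreeGroup P.S) (FreeGroup P.S × P.S) (TC F)}

theorem mk_surj (γ : Gam F) : ∃ x, mkG F x = γ := QuotientGroup.mk'_surjective _ γ

theorem mk_eq {x y : FreeGroup P.S} : mkG F x = mkG F y ↔ x⁻¹ * y ∈ KG F := QuotientGroup.eq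

theorem mk_K {k : FreeGroup P.S} (hk : k ∈ KG F) : mkG F k = 1 :=
  (QuotientGroup.eq_one_iff k).mpr hk

theorem Kg_le {c : Cell P} (hc : c ∈ F) {k : FreeGroup P.S} (hk : k ∈ c.Kg) : k ∈ KG F :=
  Subgroup.subset_normalClosure ⟨c, hc, hk⟩

theorem dG_ex (γ γ' : Gam F) : ∃ a, nr a = dG F γ γ' ∧ γ' = mkG F a * γ := by
  have h : {n | ∃ a, nr a = n ∧ γ' = mkG F a * γ}.Nonempty := by
    obtain ⟨a, ha⟩ := mk_surj (γ' * γ⁻¹)
    exact ⟨_, a, rfl, by simp [ha]⟩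
  exact Nat.sInf_mem h

theorem dG_le' {γ γ' : Gam F} {a : FreeGroup P.S} (h : γ' = mkG F a * γ) : dG F γ γ' ≤ nr a :=
  Nat.sInf_le ⟨a, rfl, h⟩

theorem dG_le (γ : Gam F) (a : FreeGroup P.S) : dG F γ (mkG F a * γ) ≤ nr a := dG_le' rfl

theorem dG_mk (x y : FreeGroup P.S) : dG F (mkG F x) (mkG F y) ≤ nr (x * y⁻¹) := by
  rw [nr_swap]
  exact dG_le' (by simp)

theorem dG_symm (γ γ' : Gam F) : dG F γ γ' = dG F γ' γ := by
  have h : ∀ γ γ' : Gam F, dG F γ γ' ≤ dG F γ' γ := by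
    intro γ γ'
    obtain ⟨a, h1, h2⟩ := dG_ex γ' γ
    rw [← h1, ← nr_inv]
    exact dG_le' (by simp [h2])
  exact le_antisymm (h _ _) (h _ _)

theorem dG_tri (γ γ' γ'' : Gam F) : dG F γ γ'' ≤ dG F γ γ' + dG F γ' γ'' := by
  obtain ⟨a, h1, h2⟩ := dG_ex γ γ'
  obtain ⟨b, h3, h4⟩ := dG_ex γ' γ''
  rw [← h1, ← h3, add_comm]
  exact (dG_le' (a := b * a) (by rw [h4, h2, map_mul, mul_assoc])).trans (nr_mul b a)

theorem dG_mul (γ γ' δ : Gam F) : dG F (γ * δ) (γ' * δ) = dG F γ γ' := by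
  unfold dG
  simp only [← mul_assoc, mul_left_inj]

theorem dG_self (γ : Gam F) : dG F γ γ = 0 :=
  Nat.le_zero.mp ((dG_le' (a := 1) (by simp)).trans nr_one.le)

theorem geo_iff (x x' : FreeGroup P.S) :
    Geo F x x' ↔ nr (x * x'⁻¹) = dG F (mkG F x) (mkG F x') := by
  constructor
  · intro h
    refine le_antisymm ?_ (dG_mk x x')
    obtain ⟨a, h1, h2⟩ := dG_ex (mkG F x) (mkG F x')
    have h3 := h (x'⁻¹ * (a * x)) (mk_eq.mp (by rw [h2, map_mul]))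
    rw [← h1, ← nr_inv a]
    simpa using h3
  · intro h k hk
    rw [h]
    have h2 := dG_mk (F := F) x (x' * k)
    rwa [map_mul, mk_K hk, mul_one] at h2

theorem geo_symm {x x' : FreeGroup P.S} (h : Geo F x x') : Geo F x' x := by
  rw [geo_iff] at h ⊢
  rw [nr_swap, dG_symm, h]

theorem geo_mul {x x' : FreeGroup P.S} (h : Geo F x x') (δ : FreeGroup P.S) :
    Geo F (x * δ) (x' * δ) := by
  rw [geo_iff] at h ⊢
  rw [map_mul, map_mul, dG_mul, ← h]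
  simp [mul_assoc]

theorem geo_self (x : FreeGroup P.S) : Geo F x x := by
  intro k _
  rw [mul_inv_cancel, nr_one]
  exact Nat.zero_le _

theorem geo_lift (x : FreeGroup P.S) (γ : Gam F) : ∃ x', mkG F x' = γ ∧ Geo F x x' := by
  obtain ⟨a, h1, h2⟩ := dG_ex (mkG F x) γ
  refine ⟨a * x, by rw [h2, map_mul], ?_⟩
  rw [geo_iff, map_mul, ← h2, ← h1, ← nr_inv a]
  simp

theorem Kg_Pg {c : Cell P} (hb : BasOut c) {k : FreeGroup P.S} (hk : k ∈ c.Kg) : k ∈ c.Pg := by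
  obtain ⟨h1, h2⟩ := (hb.memK k).mp hk
  exact (hb.memP k).mpr ⟨h1, congrArg Prod.fst h2⟩

theorem Qp_mul (hF : Adm F) {c : Cell P} (hc : c ∈ F) (hb : BasOut c) {x p : FreeGroup P.S}
    (hx : x ∈ c.Qp) (hp : p ∈ c.Pg) : x * p ∈ c.Qp :=
  (hF.ok c hc).inv x hx p ((hb.memP p).mp hp).1 ((hb.memP p).mp hp).2

theorem Qc_mul {c : Cell P} (hb : BasOut c) {x p : FreeGroup P.S} (hx : c.Qc x)
    (hp : p ∈ c.Pg) : c.Qc (x * p) :=
  hb.mulP x p hx ((hb.memP p).mp hp).1 ((hb.memP p).mp hp).2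

theorem cp_mul {c : Cell P} (hb : BasOut c) (x : FreeGroup P.S) {p : FreeGroup P.S}
    (hp : p ∈ c.Pg) : c.cp (x * p) = (c.vx x, pr x + pr p) := by
  rw [Cell.cp, hb.vx_mul x p ((hb.memP p).mp hp).2, hb.pr_mul]

theorem cp_K {c : Cell P} (hb : BasOut c) (x : FreeGroup P.S) {k : FreeGroup P.S}
    (hk : k ∈ c.Kg) : c.cp (x * k) = c.cp x := by
  have h : pr k = 0 := congrArg Prod.snd ((hb.memK k).mp hk).2
  rw [cp_mul hb x (Kg_Pg hb hk), h, add_zero]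
  rfl

theorem emb (hF : Adm F) (hw : TInst w) {c : Cell P} (hc : c ∈ F) {x x' k : FreeGroup P.S}
    (hx : x ∈ c.Qp) (hx' : x' ∈ c.Qp) (hk : k ∈ KG F) (hg : Geo F x (x' * k)) : k ∈ c.Kg := by
  simpa using embT hF hw hc (δ := 1) (by simpa using hx) (by simpa using hx') hk hg

/-- A geodesic lift of a point of the copy stays in the lifted copy. -/
theorem lift2 (hF : Adm F) (hw : TInst w) {c : Cell P} (hc : c ∈ F) (hb : BasOut c)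
    {δ x x' x0 : FreeGroup P.S} (hx : x * δ⁻¹ ∈ c.Qp) (h0 : x0 ∈ c.Qp)
    (he : mkG F x' = mkG F x0 * mkG F δ) (hg : Geo F x x') :
    ∃ k ∈ c.Kg, x' * δ⁻¹ = x0 * k ∧ x' * δ⁻¹ ∈ c.Qp := by
  have h1 : x0⁻¹ * (x' * δ⁻¹) ∈ KG F := mk_eq.mp (by simp [he])
  have h2 := emb hF hw hc hx h0 h1 (by simpa using geo_mul hg δ⁻¹)
  refine ⟨_, h2, by simp, ?_⟩
  simpa using Qp_mul hF hc hb h0 (Kg_Pg hb h2)

theorem iso (hF : Adm F) (hw : TInst w) {c : Cell P} (hc : c ∈ F) {x x' : FreeGroup P.S}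
    (hx : x ∈ c.Qp) (hx' : x' ∈ c.Qp) :
    ∃ k ∈ c.Kg, nr (x * (x' * k)⁻¹) = dG F (mkG F x) (mkG F x') := by
  obtain ⟨z, h1, h2⟩ := geo_lift x (mkG F x')
  have h3 : x'⁻¹ * z ∈ KG F := mk_eq.mp h1.symm
  refine ⟨_, emb hF hw hc hx hx' h3 (by simpa using h2), ?_⟩
  rw [geo_iff, h1] at h2
  simpa using h2

theorem pos_cp {c : Cell P} (hc : c ∈ F) (hb : BasOut c) {x : FreeGroup P.S} (hx : c.Qc x) :
    pos F c (c.cp x) = mkG F x :=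
  mk_eq.mpr (Kg_le hc ((hb.cp_eq _ _ (hb.rp _).1 hx).mp (hb.rp _).2))

theorem dC_le {c : Cell P} (hb : BasOut c) {x z : FreeGroup P.S} (hx : c.Qc x) (hz : c.Qc z) :
    dC c.τ (c.cp x) (c.cp z) ≤ nr (x * z⁻¹) := by
  obtain ⟨u, -, h1, h2⟩ := hb.unwalk x (z * x⁻¹) hx (by simpa using hz)
  rw [nr_swap, ← h1]
  have h3 := hb.ht.d_le (c.cp x) u
  rw [← h2] at h3
  simpa using h3

theorem pos_d (hF : Adm F) (hw : TInst w) {c : Cell P} (hc : c ∈ F) (hb : BasOut c)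
    (a b : c.V × ZMod 2) : dG F (pos F c a) (pos F c b) = dC c.τ a b := by
  obtain ⟨ha, ha'⟩ := hb.rp a
  obtain ⟨hb1, hb'⟩ := hb.rp b
  apply le_antisymm
  · obtain ⟨k, hk, h⟩ := hb.cov _ _ ha hb1
    have h2 := dG_mk (F := F) (c.rp a) (c.rp b * k)
    rwa [map_mul, mk_K (Kg_le hc hk), mul_one, h, ha', hb'] at h2
  · obtain ⟨k, hk, h⟩ := iso hF hw hc ((hF.ok c hc).sub _ ha) ((hF.ok c hc).sub _ hb1)
    have h2 := dC_le hb ha (Qc_mul hb hb1 (Kg_Pg hb hk))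
    rwa [cp_K hb _ hk, ha', hb', h] at h2

theorem pos_mv (hF : Adm F) {c : Cell P} (hc : c ∈ F) (hb : BasOut c) (v : c.V) (i : Fin P.j)
    (e : ZMod 2) :
    mkG F (FreeGroup.of (c.lab v i)) * pos F c ((c.τ i)⁻¹ v, e + 1) = pos F c (v, e) := by
  obtain ⟨h1, h2⟩ := hb.rp ((c.τ i)⁻¹ v, e + 1)
  have h3 := Cell.Qc.fwd _ i h1
  have h4 : c.vx (c.rp ((c.τ i)⁻¹ v, e + 1)) = (c.τ i)⁻¹ v := congrArg Prod.fst h2
  rw [h4, show c.τ i ((c.τ i)⁻¹ v) = v by simp] at h3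
  have h5 := (hb.edge _ _ h1 h3).2
  rw [h2, (hF.ok c hc).lab_slot] at h5
  have h6 : dbl c.τ i ((c.τ i)⁻¹ v, e + 1) = (v, e) := by
    have h7 : e + 1 + 1 = e := by
      rw [add_assoc, show (1 + 1 : ZMod 2) = 0 from rfl, add_zero]
    simp [dbl, h7]
  rw [← h6, ← h5, pos_cp hc hb h3, map_mul]
  rfl

theorem pos_P {c : Cell P} (hc : c ∈ F) (hb : BasOut c) {p : FreeGroup P.S} (hp : p ∈ c.Pg)
    (d : c.V × ZMod 2) : pos F c d * mkG F p = pos F c (d.1, d.2 + pr p) := by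
  obtain ⟨h1, h2⟩ := hb.rp d
  have h3 := pos_cp hc hb (Qc_mul hb h1 hp)
  have h4 : c.vx (c.rp d) = d.1 := congrArg Prod.fst h2
  have h5 : pr (c.rp d) = d.2 := congrArg Prod.snd h2
  rw [cp_mul hb _ hp, h4, h5, map_mul] at h3
  exact h3.symm

theorem dehn (hw : TInst w) {k : FreeGroup P.S} (hk : k ∈ KG F) (h1 : k ≠ 1) :
    ∃ c ∈ F, ∃ δ, ∃ κ ∈ c.Kg, c.L ≤ nr k ∧ nr (k * (δ⁻¹ * κ * δ)) < nr k := by
  obtain ⟨Q, κ, hκ, hκ1, h⟩ := hw.out.green k (by rwa [hw.KK_eq]) h1 1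
  rw [one_mul] at h
  have h2 := w.disp Q κ _ hκ hκ1 (π_mem Q 1)
  have h3 := hw.pre.d_tri (w.π Q 1) (w.π Q k) (w.π Q 1 * κ)
  have h4 := g_θ hw Q
  have h5 := w.θ_pos Q
  have h6 := hw.out.pass Q 1 k (by unfold WS.run; omega)
  have h7 : w.d 1 k = nr k := by rw [hw.tree.d_eq, one_mul, nr_inv]
  have h8 : w.d 1 (k * κ⁻¹) = nr (k * κ⁻¹) := by rw [hw.tree.d_eq, one_mul, nr_inv]
  have h9 := hw.pre.d_tri 1 (w.π Q 1) (k * κ⁻¹)
  have h10 := hw.pre.d_tri (w.π Q 1) (w.π Q k * κ⁻¹) (k * κ⁻¹)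
  have h11 := hw.pre.d_mul (w.π Q 1) (w.π Q k * κ⁻¹) κ
  rw [inv_mul_cancel_right, hw.pre.d_comm] at h11
  rw [hw.pre.d_mul] at h10
  unfold WS.run at h6
  obtain ⟨c, hc, δ, rfl⟩ := tc_surj Q
  rw [θ_tc hw] at *
  refine ⟨c, hc, δ, δ * κ⁻¹ * δ⁻¹, (hw.K_iff c hc δ _).mp (Subgroup.inv_mem _ hκ), by omega, ?_⟩
  have h12 : δ⁻¹ * (δ * κ⁻¹ * δ⁻¹) * δ = κ⁻¹ := by group
  rw [h12]
  omega

end Pool.Agent.P.MP_9167e9_an.G1
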