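import Pool.Agent.P.MP_9167e9_an.StG

/-!
The tree with its cells: projections of a core with its trees to other cells.
-/

noncomputable section
open scoped Classical

namespace Pool.Agent.P.MP_9167e9_an.G1

theorem nr_inv {A : Type} (x : FreeGroup A) : nr x⁻¹ = nr x :=
  @FreeGroup.norm_inv_eq A (Classical.decEq A) x

theorem nr_mul {A : Type} (x y : FreeGroup A) : nr (x * y) ≤ nr x + nr y :=
  @FreeGroup.norm_mul_le A (Classical.decEq A) x y

theorem nr_one {A : Type} : nr (1 : FreeGroup A) = 0 :=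
  @FreeGroup.norm_one A (Classical.decEq A)

theorem nr_swap {A : Type} (x y : FreeGroup A) : nr (x * y⁻¹) = nr (y * x⁻¹) := by
  rw [← nr_inv, mul_inv_rev, inv_inv]

theorem conn_mul {S : Type} {T : Set (FreeGroup S)} (h : Conn T) (δ : FreeGroup S) :
    Conn {x | x * δ⁻¹ ∈ T} := by
  intro x hx y hy
  have h1 : ∀ z, Relation.ReflTransGen
      (fun a b => b ∈ T ∧ ∃ s, b = FreeGroup.of s * a ∨ a = FreeGroup.of s * b) (x * δ⁻¹) z →
      Relation.ReflTransGen (fun a b => b ∈ {x | x * δ⁻¹ ∈ T} ∧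
        ∃ s, b = FreeGroup.of s * a ∨ a = FreeGroup.of s * b) x (z * δ) := by
    intro z hz
    induction hz with
    | refl => simpa using Relation.ReflTransGen.refl
    | tail _ h2 ih =>
      refine ih.tail ?_
      obtain ⟨hb, s, rfl | rfl⟩ := h2
      · exact ⟨by simpa using hb, s, Or.inl (mul_assoc _ _ _)⟩
      · exact ⟨by simpa using hb, s, Or.inr (mul_assoc _ _ _)⟩
  simpa using h1 _ (h _ hx _ hy)

variable {P : Prm} {F : Set (Cell P)} {w : WS (FreeGroup P.S) (FreeGroup P.S × P.S) (TC F)}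

theorem tc_surj (Q : TC F) : ∃ c hc δ, Q = tc F c hc δ := by
  obtain ⟨⟨c, T⟩, hc, δ, h⟩ := Q
  simp only at hc h
  subst h
  exact ⟨c, hc, δ, rfl⟩

theorem tc_inj {c c' : Cell P} {hc : c ∈ F} {hc' : c' ∈ F} {δ δ' : FreeGroup P.S}
    (hb : BasOut c) (h : tc F c hc δ = tc F c' hc' δ') : c = c' ∧ δ' * δ⁻¹ ∈ c.Pg := by
  have h1 : c = c' := congrArg (fun Q : TC F => Q.1.1) h
  subst h1
  exact ⟨rfl, (hb.same δ δ').mp (congrArg (fun Q : TC F => Q.1.2) h)⟩

theorem L_pos (hF : Adm F) {c : Cell P} (hc : c ∈ F) : 1 ≤ c.L :=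
  Nat.one_le_pow _ _ (by have := (hF.ok c hc).R_big; omega)

theorem R2_le (hF : Adm F) {c c' : Cell P} (hc : c ∈ F) (h : c.R ≤ c'.R) : c.R2 ≤ c'.L :=
  (Nat.pow_le_pow_right (by have := (hF.ok c hc).R_big; omega) (by norm_num)).trans
    (Nat.pow_le_pow_left h 15)

theorem π_mem (Q : TC F) (x : FreeGroup P.S) : w.π Q x ∈ w.cell Q := (w.π_gate Q x).1

theorem mem_cell (hw : TInst w) {c : Cell P} {hc : c ∈ F} {δ x : FreeGroup P.S} :
    x ∈ w.cell (tc F c hc δ) ↔ c.Qc (x * δ⁻¹) := by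
  rw [hw.cell_eq]
  rfl

theorem π_Qc (hw : TInst w) {c : Cell P} (hc : c ∈ F) (δ x : FreeGroup P.S) :
    c.Qc (w.π (tc F c hc δ) x * δ⁻¹) := (mem_cell hw).mp (π_mem _ x)

theorem θ_tc (hw : TInst w) {c : Cell P} (hc : c ∈ F) (δ : FreeGroup P.S) :
    w.θ (tc F c hc δ) = c.L := hw.θ_eq _

theorem g_θ (hw : TInst w) (Q : TC F) : w.g Q = 10 ^ 4 * w.θ Q := by
  rw [hw.g_eq, hw.θ_eq]
  rfl

theorem d_self (hw : TInst w) (x : FreeGroup P.S) : w.d x x = 0 := (hw.pre.d_zero x x).mpr rfl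

theorem π_le (Q : TC F) (x : FreeGroup P.S) {y : FreeGroup P.S} (hy : y ∈ w.cell Q) :
    w.d x (w.π Q x) ≤ w.d x y := by
  rw [(w.π_gate Q x).2 y hy]
  exact Nat.le_add_right _ _

theorem π_self (hw : TInst w) {Q : TC F} {x : FreeGroup P.S} (hx : x ∈ w.cell Q) :
    w.π Q x = x := by
  have h := π_le Q x hx
  rw [d_self hw, Nat.le_zero, hw.pre.d_zero] at h
  exact h.symm

theorem run_tri (hw : TInst w) (Q : TC F) (x y z : FreeGroup P.S) :
    w.run Q x z ≤ w.run Q x y + w.run Q y z := hw.pre.d_tri _ _ _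

theorem run_comm (hw : TInst w) (Q : TC F) (x y : FreeGroup P.S) :
    w.run Q x y = w.run Q y x := hw.pre.d_comm _ _

theorem run_cell (hw : TInst w) {Q : TC F} {x y : FreeGroup P.S} (hx : x ∈ w.cell Q)
    (hy : y ∈ w.cell Q) : w.run Q x y = w.d x y := by
  unfold WS.run
  rw [π_self hw hx, π_self hw hy]

theorem run_π (hw : TInst w) (Q : TC F) (x : FreeGroup P.S) : w.run Q (w.π Q x) x = 0 := by
  unfold WS.run
  rw [π_self hw (π_mem Q x), d_self hw]

theorem π_K (hw : TInst w) {Q : TC F} {k : FreeGroup P.S} (hk : k ∈ w.K Q) (x : FreeGroup P.S) :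
    w.π Q (x * k) = w.π Q x * k := by
  have h := hw.out.π_ac Q x k
  rwa [w.K_fix Q k hk] at h

theorem K_le (hw : TInst w) {Q : TC F} {k : FreeGroup P.S} (hk : k ∈ w.K Q) : k ∈ KG F := by
  rw [← hw.KK_eq]
  exact le_iSup w.K Q hk

/-- If the run is long, both gates lie on the geodesic. -/
theorem pass_btw (hw : TInst w) {Q : TC F} {x y : FreeGroup P.S} (h : w.θ Q < w.run Q x y) :
    w.d x y = w.d x (w.π Q x) + w.d (w.π Q x) y ∧ w.d x y = w.d x (w.π Q y) + w.d (w.π Q y) y := by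
  have h1 := hw.out.pass Q x y h
  have h2 := hw.pre.d_tri (w.π Q x) (w.π Q y) y
  have h3 := hw.pre.d_tri x (w.π Q x) y
  have h4 := hw.pre.d_tri x (w.π Q x) (w.π Q y)
  have h5 := hw.pre.d_tri x (w.π Q y) y
  unfold WS.run at h1
  omega

/-- A core with its trees is convex. -/
theorem convP (hF : Adm F) (hw : TInst w) {c : Cell P} (hc : c ∈ F) {δ x y z : FreeGroup P.S}
    (hx : x * δ⁻¹ ∈ c.Qp) (hy : y * δ⁻¹ ∈ c.Qp) (h : w.d x y = w.d x z + w.d z y) :
    z * δ⁻¹ ∈ c.Qp :=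
  hw.pre.convex {x | x * δ⁻¹ ∈ c.Qp}
    (hw.tree.gate _ ⟨x, hx⟩ (conn_mul (hF.ok c hc).conn δ)) x hx y hy z h

theorem π_Qp (hF : Adm F) (hw : TInst w) {c : Cell P} (hc : c ∈ F) (δ x : FreeGroup P.S) :
    w.π (tc F c hc δ) x * δ⁻¹ ∈ c.Qp := (hF.ok c hc).sub _ (π_Qc hw hc δ x)

theorem depth (hF : Adm F) (hw : TInst w) {c : Cell P} (hc : c ∈ F) {δ y : FreeGroup P.S}
    (hy : y * δ⁻¹ ∈ c.Qp) : w.d y (w.π (tc F c hc δ) y) ≤ c.R2 := by
  obtain ⟨z, hz, h⟩ := (hF.ok c hc).depth _ hy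
  refine (π_le _ y (y := z * δ) ((mem_cell hw).mpr (by simpa using hz))).trans ?_
  rw [hw.tree.d_eq]
  simpa [mul_assoc] using h

/-- A tree attached to a core has a small projection to every cell. -/
theorem TP (hF : Adm F) (hw : TInst w) {c : Cell P} (hc : c ∈ F) {δ y : FreeGroup P.S}
    (hy : y * δ⁻¹ ∈ c.Qp) (Q : TC F) : w.run Q (w.π (tc F c hc δ) y) y ≤ w.θ Q := by
  by_contra hlt
  rw [not_le] at hlt
  obtain ⟨h1, h2⟩ := pass_btw hw hlt
  have h0 := hw.out.pass Q _ _ hlt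
  have h3 := convP hF hw hc (π_Qp hF hw hc δ y) hy h1
  have h4 := convP hF hw hc (π_Qp hF hw hc δ y) hy h2
  obtain ⟨e, he, ε, rfl⟩ := tc_surj Q
  rw [θ_tc hw] at hlt
  rcases lt_or_ge e.R c.R with hR | hR
  · have h5 := hF.pc1 e he c hc hR _ _
      (w.π (tc F e he ε) y * (w.π (tc F e he ε) (w.π (tc F c hc δ) y))⁻¹)
      (π_Qc hw he ε (w.π (tc F c hc δ) y)) (by simpa [mul_assoc] using π_Qc hw he ε y) h3
      (by simpa [mul_assoc] using h4)
    rw [← hw.tree.d_eq, hw.pre.d_comm] at h5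
    unfold WS.run at hlt
    omega
  · have h5 := depth hF hw hc hy
    have h6 := R2_le hF hc hR
    rw [hw.pre.d_comm] at h5
    omega

/-- A core with its trees has a small projection to every other cell. -/
theorem OV (hF : Adm F) (hw : TInst w) {c : Cell P} (hc : c ∈ F) {δ x y : FreeGroup P.S}
    (hx : x * δ⁻¹ ∈ c.Qp) (hy : y * δ⁻¹ ∈ c.Qp) {Q : TC F} (hQ : Q ≠ tc F c hc δ) :
    w.run Q x y ≤ 3 * w.θ Q := by
  have h1 := TP hF hw hc hx Q
  have h2 := TP hF hw hc hy Q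
  have h3 : w.run Q (w.π (tc F c hc δ) x) (w.π (tc F c hc δ) y) ≤ w.θ Q :=
    w.ax2 Q _ _ _ hQ (π_mem _ x) (π_mem _ y)
  have h4 := run_tri hw Q x (w.π (tc F c hc δ) x) y
  have h5 := run_tri hw Q (w.π (tc F c hc δ) x) (w.π (tc F c hc δ) y) y
  rw [run_comm hw] at h1
  omega

theorem geo_d (hw : TInst w) {x y : FreeGroup P.S} :
    Geo F x y ↔ ∀ k ∈ w.KK, w.d x y ≤ w.d x (y * k) := by
  simp only [hw.KK_eq, hw.tree.d_eq, Geo]

/-- Points of a core with its trees are good. -/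
theorem goodP (hF : Adm F) (hw : TInst w) {c : Cell P} (hc : c ∈ F) {δ y : FreeGroup P.S}
    (hy : y * δ⁻¹ ∈ c.Qp) : w.Good (tc F c hc δ) y := by
  intro Q k _
  have h1 := TP hF hw hc hy Q
  have h2 := g_θ hw Q
  omega

theorem not_heavy (hF : Adm F) (hw : TInst w) {c : Cell P} (hc : c ∈ F) {δ y : FreeGroup P.S}
    (hy : y * δ⁻¹ ∈ c.Qp) (Q : TC F) : ¬ w.Heavy (tc F c hc δ) Q y := by
  have h1 := TP hF hw hc hy Q
  have h2 := g_θ hw Q
  have h3 := w.θ_pos Q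
  unfold WS.Heavy
  omega

/-- The end of a geodesic of the quotient starting in a core with its trees is good. -/
theorem GoodT (hF : Adm F) (hw : TInst w) {c : Cell P} (hc : c ∈ F) {δ y x : FreeGroup P.S}
    (hy : y * δ⁻¹ ∈ c.Qp) (hg : Geo F y x) : w.Good (tc F c hc δ) x := by
  intro Q k hk
  by_cases hQ : Q = tc F c hc δ
  · rw [hQ, run_π hw]
    omega
  · have h1 := OV hF hw hc (π_Qp hF hw hc δ x) hy hQ
    have h2 := hw.out.geo y x ((geo_d hw).mp hg) Q k hk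
    have h3 := run_tri hw Q (w.π (tc F c hc δ) x) y x
    have h4 := hw.pre.d_tri (w.π Q y) (w.π Q (w.π (tc F c hc δ) x)) (w.π Q x * k)
    have h5 : w.d (w.π Q y) (w.π Q (w.π (tc F c hc δ) x)) = w.run Q (w.π (tc F c hc δ) x) y :=
      hw.pre.d_comm _ _
    have h6 := g_θ hw Q
    omega

/-- Geodesics of the quotient between points of a copy lift to the copy. -/
theorem embT (hF : Adm F) (hw : TInst w) {c : Cell P} (hc : c ∈ F) {δ x x' k : FreeGroup P.S}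
    (hx : x * δ⁻¹ ∈ c.Qp) (hx' : x' * δ⁻¹ ∈ c.Qp) (hk : k ∈ KG F) (hg : Geo F x (x' * k)) :
    δ * k * δ⁻¹ ∈ c.Kg := by
  rcases hw.out.first _ x' k (by rwa [hw.KK_eq]) (goodP hF hw hc hx') (GoodT hF hw hc hx hg) with
    h | ⟨Q, h, -⟩
  · exact (hw.K_iff c hc δ k).mp h
  · exact absurd h (not_heavy hF hw hc hx' Q)

end Pool.Agent.P.MP_9167e9_an.G1
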